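import Mathlib
import Pool.Agent.H15.EC.Colour
import Pool.Agent.H28.VAL

/-!
Graphs with the same deck and the chromatic index: reduction to vertex-critical graphs, which have
a spanning edge-critical subgraph; degrees of the neighbours are reconstructible.
-/

set_option autoImplicit false
set_option linter.unusedSectionVars false

namespace Pool.Agent.H70.CI

open Finset Pool.Agent.H28 Pool.Agent.H15.EC

variable {V : Type} [Fintype V] [DecidableEq V]

/-- The degree. -/
noncomputable def dg (G : SimpleGraph V) (v : V) : ℕ := (G.neighborSet v).ncard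

/-- `G - v` on the same vertex set. -/
def cut (G : SimpleGraph V) (v : V) : SimpleGraph V where
  Adj a b := G.Adj a b ∧ a ≠ v ∧ b ≠ v
  symm := ⟨fun _ _ h => ⟨h.1.symm, h.2.2, h.2.1⟩⟩
  loopless := ⟨fun _ h => h.1.ne rfl⟩

theorem cut_adj {G : SimpleGraph V} {v a b : V} :
    (cut G v).Adj a b ↔ G.Adj a b ∧ a ≠ v ∧ b ≠ v := Iff.rfl

theorem cut_le (G : SimpleGraph V) (v : V) : cut G v ≤ G := fun _ _ h => h.1

theorem ECol.mono {G H : SimpleGraph V} {D : ℕ} (h : G ≤ H) (hc : ECol H D) : ECol G D := by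
  obtain ⟨c, h1, h2⟩ := hc
  exact ⟨c, fun u v huv => h1 u v (h huv), fun u v w huv huw hvw => h2 u v w (h huv) (h huw) hvw⟩

theorem ECol.of_iso {G H : SimpleGraph V} {D : ℕ} (f : V ≃ V)
    (hf : ∀ x y, G.Adj x y → H.Adj (f x) (f y)) (hc : ECol H D) : ECol G D := by
  obtain ⟨c, h1, h2⟩ := hc
  refine ⟨fun e => c (e.map f), fun u v huv => ?_, fun u v w huv huw hvw => ?_⟩
  · exact h1 _ _ (hf u v huv)
  · exact h2 _ _ _ (hf u v huv) (hf u w huw) (fun h => hvw (f.injective h))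

theorem card_iso {G H : SimpleGraph V} {σ : V ≃ V} (hd : Deck G H σ) (v : V) :
    ∃ f : V ≃ V, f v = σ v ∧ ∀ x y, (cut G v).Adj x y ↔ (cut H (σ v)).Adj (f x) (f y) := by
  obtain ⟨f, hf, hiso⟩ := hd v
  refine ⟨f, hf, fun x y => ?_⟩
  rw [cut_adj, cut_adj, ← hf, f.injective.ne_iff, f.injective.ne_iff]
  constructor
  · rintro ⟨h, hx, hy⟩
    exact ⟨(hiso x (by simp [hx]) y (by simp [hy])).1 h, hx, hy⟩
  · rintro ⟨h, hx, hy⟩
    exact ⟨(hiso x (by simp [hx]) y (by simp [hy])).2 h, hx, hy⟩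

theorem ecol_card {G H : SimpleGraph V} {σ : V ≃ V} (hd : Deck G H σ) (D : ℕ) (v : V) :
    ECol (cut G v) D ↔ ECol (cut H (σ v)) D := by
  obtain ⟨f, _, hf⟩ := card_iso hd v
  constructor
  · intro h
    refine ECol.of_iso f.symm (fun x y hxy => ?_) h
    rw [hf, f.apply_symm_apply, f.apply_symm_apply]
    exact hxy
  · intro h
    exact ECol.of_iso f (fun x y hxy => (hf x y).1 hxy) h

/-- `G` is not `D`-edge-colourable, but all its vertex-deleted subgraphs are. -/
def VCrit (G : SimpleGraph V) (D : ℕ) : Prop := ¬ ECol G D ∧ ∀ v, ECol (cut G v) D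

theorem ecol_iff_of_deck {G H : SimpleGraph V} {σ : V ≃ V} (hd : Deck G H σ) (D : ℕ)
    (hG : ¬ VCrit G D) (hH : ¬ VCrit H D) : ECol G D ↔ ECol H D := by
  by_cases h : ∀ v, ECol (cut G v) D
  · have h' : ∀ v, ECol (cut H v) D := by
      intro v
      have := (ecol_card hd D (σ.symm v)).1 (h _)
      rwa [σ.apply_symm_apply] at this
    refine iff_of_true ?_ ?_
    · by_contra hc; exact hG ⟨hc, h⟩
    · by_contra hc; exact hH ⟨hc, h'⟩
  · push Not at h
    obtain ⟨v, hv⟩ := h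
    refine iff_of_false (fun hc => hv (ECol.mono (cut_le G v) hc)) (fun hc => ?_)
    exact hv ((ecol_card hd D v).2 (ECol.mono (cut_le H _) hc))

/-- A vertex-critical graph has a spanning edge-critical subgraph. -/
theorem exists_spanning {G : SimpleGraph V} {D : ℕ} (h : VCrit G D) :
    ∃ X ≤ G, ¬ ECol X D ∧ (∀ x y, X.Adj x y → ECol (del X x y) D) ∧ ∀ v, ∃ w, X.Adj v w := by
  obtain ⟨X, hX, h1, h2⟩ := exists_critical h.1
  refine ⟨X, hX, h1, h2, fun v => ?_⟩
  by_contra hv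
  push Not at hv
  refine h1 (ECol.mono (fun a b hab => ?_) (h.2 v))
  refine ⟨hX hab, ?_, ?_⟩
  · rintro rfl; exact hv b hab
  · rintro rfl; exact hv a hab.symm

end Pool.Agent.H70.CI
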