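import Mathlib
import Pool.Agent.H70.CI.Base

/-!
The degrees and the degrees of the neighbours of each vertex are determined by the deck.
-/

set_option autoImplicit false
set_option linter.unusedSectionVars false

namespace Pool.Agent.H70.CI

open Finset Pool.Agent.H28 Pool.Agent.H15.EC

variable {V : Type} [Fintype V] [DecidableEq V]

theorem inc_eq_dg (G : SimpleGraph V) (v : V) : inc G v = dg G v := by
  classical
  have h1 : dg G v = G.degree v := by
    unfold dg
    rw [← SimpleGraph.card_neighborSet_eq_degree, Set.ncard_eq_toFinset_card', Set.toFinset_card]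
  rw [h1, ← SimpleGraph.card_incidenceFinset_eq_degree, inc]
  congr 1
  ext e
  simp [SimpleGraph.incidenceSet]

theorem dg_rec {G H : SimpleGraph V} {σ : V ≃ V} (hd : Deck G H σ) (hn : 3 ≤ Fintype.card V)
    (v : V) : dg G v = dg H (σ v) := by
  rw [← inc_eq_dg, ← inc_eq_dg, inc_rec hd hn]

open Classical in
/-- The number of neighbours of `v` of degree `j`. -/
noncomputable def nb (G : SimpleGraph V) (v : V) (j : ℕ) : ℕ :=
  (univ.filter fun z => G.Adj v z ∧ dg G z = j).card

open Classical in
/-- The number of vertices of degree `j`. -/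
noncomputable def Nj (G : SimpleGraph V) (j : ℕ) : ℕ := (univ.filter fun z => dg G z = j).card

open Classical in
/-- The number of vertices of degree `j` in `G - v`. -/
noncomputable def cc (G : SimpleGraph V) (v : V) (j : ℕ) : ℕ :=
  (univ.filter fun z => z ≠ v ∧ dg (cut G v) z = j).card

theorem Nj_rec {G H : SimpleGraph V} {σ : V ≃ V} (hd : Deck G H σ) (hn : 3 ≤ Fintype.card V)
    (j : ℕ) : Nj G j = Nj H j := by
  classical
  unfold Nj
  apply Finset.card_equiv σ
  intro v
  simp [dg_rec hd hn v]

theorem dg_of_iso {G H : SimpleGraph V} (f : V ≃ V) (hf : ∀ x y, G.Adj x y ↔ H.Adj (f x) (f y))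
    (v : V) : dg G v = dg H (f v) := by
  unfold dg
  rw [← Set.ncard_image_of_injective _ f.injective]
  congr 1
  ext w
  simp only [Set.mem_image, SimpleGraph.mem_neighborSet]
  constructor
  · rintro ⟨x, hx, rfl⟩; exact (hf v x).1 hx
  · intro h
    refine ⟨f.symm w, ?_, f.apply_symm_apply w⟩
    rw [hf, f.apply_symm_apply]; exact h

theorem cc_rec {G H : SimpleGraph V} {σ : V ≃ V} (hd : Deck G H σ) (v : V) (j : ℕ) :
    cc G v j = cc H (σ v) j := by
  classical
  obtain ⟨f, hf, hiso⟩ := card_iso hd v
  unfold cc
  apply Finset.card_equiv f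
  intro z
  rw [mem_filter, mem_filter, dg_of_iso f hiso z, ← hf, f.injective.ne_iff, hf]
  simp

theorem dg_cut_adj {G : SimpleGraph V} {v z : V} (h : G.Adj v z) :
    dg (cut G v) z + 1 = dg G z := by
  unfold dg
  have h1 : G.neighborSet z = insert v ((cut G v).neighborSet z) := by
    ext w
    rw [Set.mem_insert_iff, SimpleGraph.mem_neighborSet, SimpleGraph.mem_neighborSet, cut_adj]
    constructor
    · intro hw
      by_cases hwv : w = v
      · exact Or.inl hwv
      · exact Or.inr ⟨hw, h.ne', hwv⟩
    · rintro (rfl | hw)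
      · exact h.symm
      · exact hw.1
  rw [h1, Set.ncard_insert_of_notMem]
  intro hv
  exact hv.2.2 rfl

theorem dg_cut_not {G : SimpleGraph V} {v z : V} (hz : z ≠ v) (h : ¬ G.Adj v z) :
    dg (cut G v) z = dg G z := by
  unfold dg
  congr 1
  ext w
  rw [SimpleGraph.mem_neighborSet, SimpleGraph.mem_neighborSet, cut_adj]
  constructor
  · exact fun hw => hw.1
  · intro hw
    refine ⟨hw, hz, ?_⟩
    rintro rfl
    exact h hw.symm

open Classical in
theorem cc_relation (G : SimpleGraph V) (v : V) (j : ℕ) :
    cc G v j + nb G v j + (if dg G v = j then 1 else 0) = Nj G j + nb G v (j + 1) := by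
  have h1 : (if dg G v = j then 1 else 0) =
      (univ.filter fun z => z = v ∧ dg G z = j).card := by
    split_ifs with h
    · symm
      rw [Finset.card_eq_one]
      refine ⟨v, ?_⟩
      ext z
      simp only [mem_filter, mem_univ, true_and, mem_singleton]
      constructor
      · exact fun hz => hz.1
      · rintro rfl; exact ⟨rfl, h⟩
    · symm
      rw [Finset.card_eq_zero, Finset.filter_eq_empty_iff]
      rintro z _ ⟨rfl, hz⟩
      exact h hz
  rw [h1]
  unfold cc nb Nj
  simp_rw [Finset.card_filter]
  rw [← Finset.sum_add_distrib, ← Finset.sum_add_distrib, ← Finset.sum_add_distrib]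
  apply Finset.sum_congr rfl
  intro z _
  by_cases hz : z = v
  · subst hz
    have : ¬ G.Adj z z := G.loopless.irrefl z
    simp [this]
  · by_cases ha : G.Adj v z
    · have h2 := dg_cut_adj ha
      have h3 : dg (cut G v) z = j ↔ dg G z = j + 1 := by omega
      simp only [hz, ne_eq, not_false_eq_true, true_and, h3, ha, false_and, if_false, add_zero]
      omega
    · rw [dg_cut_not hz ha]
      simp [hz, ha]

theorem nb_zero (G : SimpleGraph V) (v : V) : nb G v 0 = 0 := by
  classical
  unfold nb
  rw [Finset.card_eq_zero, Finset.filter_eq_empty_iff]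
  rintro z _ ⟨hz, h0⟩
  unfold dg at h0
  rw [Set.ncard_eq_zero (Set.toFinite _)] at h0
  have : v ∈ G.neighborSet z := hz.symm
  rw [h0] at this
  exact this

/-- The degrees of the neighbours of each vertex are reconstructible. -/
theorem nb_rec {G H : SimpleGraph V} {σ : V ≃ V} (hd : Deck G H σ) (hn : 3 ≤ Fintype.card V)
    (v : V) (j : ℕ) : nb G v j = nb H (σ v) j := by
  induction j with
  | zero => rw [nb_zero, nb_zero]
  | succ j ih =>
    have h1 := cc_relation G v j
    have h2 := cc_relation H (σ v) j
    rw [cc_rec hd, ih, dg_rec hd hn, Nj_rec hd hn] at h1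
    omega

end Pool.Agent.H70.CI
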