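import Mathlib
import Pool.Agent.H70.CI.Types

/-!
Consequences of Vizing's adjacency lemma for vertex-critical graphs.
-/

set_option autoImplicit false
set_option linter.unusedSectionVars false

namespace Pool.Agent.H70.CI

open Finset Pool.Agent.H28 Pool.Agent.H15.EC

variable {V : Type} [Fintype V] [DecidableEq V]

/-- `X` is a spanning edge-critical subgraph of `G`. -/
structure Span (G X : SimpleGraph V) (D : ℕ) : Prop where
  le : X ≤ G
  nc : ¬ ECol X D
  cr : ∀ x y, X.Adj x y → ECol (del X x y) D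
  sp : ∀ v, ∃ w, X.Adj v w
  deg : ∀ v, dg X v ≤ D

theorem dg_mono {G X : SimpleGraph V} (h : X ≤ G) (v : V) : dg X v ≤ dg G v :=
  Set.ncard_le_ncard (fun _ hw => h hw) (Set.toFinite _)

theorem exists_span {G : SimpleGraph V} {D : ℕ} (hdeg : ∀ v, dg G v ≤ D) (h : VCrit G D) :
    ∃ X, Span G X D := by
  obtain ⟨X, h1, h2, h3, h4⟩ := exists_spanning h
  exact ⟨X, h1, h2, h3, h4, fun v => (dg_mono h1 v).trans (hdeg v)⟩

/-- The neighbours of `x` of degree `D` other than `y`. -/
def big (G : SimpleGraph V) (D : ℕ) (x y : V) : Set V := {z | G.Adj x z ∧ z ≠ y ∧ dg G z = D}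

theorem Span.val {G X : SimpleGraph V} {D : ℕ} (h : Span G X D) {x y : V} (hxy : X.Adj x y) :
    D + 1 ≤ dg X y + (big X D x y).ncard :=
  Pool.Agent.H28.val h.deg hxy h.nc (h.cr x y hxy)

theorem Span.exists_big {G X : SimpleGraph V} {D : ℕ} (h : Span G X D) {x y : V}
    (hxy : X.Adj x y) : ∃ z, X.Adj x z ∧ z ≠ y ∧ dg X z = D := by
  have h1 := h.val hxy
  have h2 := h.deg y
  have h3 : 0 < (big X D x y).ncard := by omega
  rw [Set.ncard_pos (Set.toFinite _)] at h3
  exact h3

/-- Each vertex has two neighbours of degree `D` in the critical subgraph. -/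
theorem Span.two {G X : SimpleGraph V} {D : ℕ} (h : Span G X D) (x : V) :
    ∃ z w, z ≠ w ∧ X.Adj x z ∧ X.Adj x w ∧ dg X z = D ∧ dg X w = D := by
  obtain ⟨y, hy⟩ := h.sp x
  obtain ⟨z, hz, _, hz'⟩ := h.exists_big hy
  obtain ⟨w, hw, hwz, hw'⟩ := h.exists_big hz
  exact ⟨z, w, hwz.symm, hz, hw, hz', hw'⟩

theorem Span.dg_eq {G X : SimpleGraph V} {D : ℕ} (h : Span G X D) (hdeg : ∀ v, dg G v ≤ D)
    {z : V} (hz : dg X z = D) : dg G z = D :=
  le_antisymm (hdeg z) (hz ▸ dg_mono h.le z)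

theorem Span.big_le {G X : SimpleGraph V} {D : ℕ} (h : Span G X D) (hdeg : ∀ v, dg G v ≤ D)
    (x y : V) : (big X D x y).ncard ≤ (big G D x y).ncard :=
  Set.ncard_le_ncard (fun _ hz => ⟨h.le hz.1, hz.2.1, h.dg_eq hdeg hz.2.2⟩) (Set.toFinite _)

/-- In a vertex-critical graph every vertex `y` has two neighbours `x` of maximum degree such that
`x` has at least `D - d(y) + 1` neighbours of maximum degree other than `y`. -/
theorem two_good {G : SimpleGraph V} {D : ℕ} (hdeg : ∀ v, dg G v ≤ D) (h : VCrit G D) (y : V) :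
    ∃ z w, z ≠ w ∧ (G.Adj y z ∧ dg G z = D ∧ D + 1 ≤ dg G y + (big G D z y).ncard) ∧
      (G.Adj y w ∧ dg G w = D ∧ D + 1 ≤ dg G y + (big G D w y).ncard) := by
  obtain ⟨X, hX⟩ := exists_span hdeg h
  obtain ⟨z, w, hzw, hz, hw, hz', hw'⟩ := hX.two y
  have key : ∀ x, X.Adj y x → dg X x = D →
      (G.Adj y x ∧ dg G x = D ∧ D + 1 ≤ dg G y + (big G D x y).ncard) := by
    intro x hx hx'
    refine ⟨hX.le hx, hX.dg_eq hdeg hx', ?_⟩
    have h1 := hX.val hx.symm
    have h2 := hX.big_le hdeg x y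
    have h3 := dg_mono hX.le y
    omega
  exact ⟨z, w, hzw, key z hz hz', key w hw hw'⟩

/-- In a vertex-critical graph every vertex has at least two neighbours of maximum degree. -/
theorem two_le_nb {G : SimpleGraph V} {D : ℕ} (hdeg : ∀ v, dg G v ≤ D) (h : VCrit G D) (y : V) :
    2 ≤ nb G y D := by
  classical
  obtain ⟨z, w, hzw, hz, hw⟩ := two_good hdeg h y
  unfold nb
  have h1 : ({z, w} : Finset V) ⊆ univ.filter fun x => G.Adj y x ∧ dg G x = D := by
    intro x hx
    rw [mem_insert, mem_singleton] at hx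
    rw [mem_filter]
    rcases hx with rfl | rfl
    · exact ⟨mem_univ _, hz.1, hz.2.1⟩
    · exact ⟨mem_univ _, hw.1, hw.2.1⟩
  have h2 := Finset.card_le_card h1
  rwa [Finset.card_pair hzw] at h2

open Classical in
/-- The pairs `(x, y)` of adjacent vertices with `d(y) = k`, `d(x) = D` such that `x` has at least
`D - k + 1` neighbours of degree `D` other than `y`. -/
noncomputable def pairs (G : SimpleGraph V) (D k : ℕ) : Finset (V × V) :=
  univ.filter fun p => G.Adj p.1 p.2 ∧ dg G p.2 = k ∧ dg G p.1 = D ∧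
    D + 1 ≤ k + (big G D p.1 p.2).ncard

theorem two_le_pairs {G : SimpleGraph V} {D : ℕ} (hdeg : ∀ v, dg G v ≤ D) (h : VCrit G D)
    (k : ℕ) : 2 * Nj G k ≤ (pairs G D k).card := by
  classical
  unfold Nj
  have h1 : ∀ y ∈ univ.filter (fun y => dg G y = k),
      2 ≤ ((pairs G D k).filter fun p => p.2 = y).card := by
    intro y hy
    rw [mem_filter] at hy
    obtain ⟨z, w, hzw, hz, hw⟩ := two_good hdeg h y
    have hne : (z, y) ≠ (w, y) := fun h => hzw (Prod.mk.inj h).1
    rw [← Finset.card_pair hne]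
    apply Finset.card_le_card
    intro p hp
    rw [mem_insert, mem_singleton] at hp
    rw [mem_filter, pairs, mem_filter]
    rcases hp with rfl | rfl
    · exact ⟨⟨mem_univ _, hz.1.symm, hy.2, hz.2.1, hy.2 ▸ hz.2.2⟩, rfl⟩
    · exact ⟨⟨mem_univ _, hw.1.symm, hy.2, hw.2.1, hy.2 ▸ hw.2.2⟩, rfl⟩
  have h2 : (pairs G D k).card =
      ∑ y ∈ univ.filter (fun y => dg G y = k), ((pairs G D k).filter fun p => p.2 = y).card := by
    apply Finset.card_eq_sum_card_fiberwise
    intro p hp
    rw [Finset.mem_coe, pairs, mem_filter] at hp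
    rw [Finset.mem_coe, mem_filter]
    exact ⟨mem_univ _, hp.2.2.1⟩
  rw [h2, mul_comm, ← smul_eq_mul, ← Finset.sum_const]
  exact Finset.sum_le_sum h1

theorem big_ncard {G : SimpleGraph V} {D k : ℕ} {x y : V} (hxy : G.Adj x y) (hk : dg G y = k) :
    (big G D x y).ncard + (if k = D then 1 else 0) = nb G x D := by
  classical
  have h1 : (big G D x y).ncard = (univ.filter fun z => G.Adj x z ∧ z ≠ y ∧ dg G z = D).card := by
    rw [← Set.ncard_coe_finset]
    congr 1
    ext z
    simp [big]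
  rw [h1, nb]
  split_ifs with h
  · have h2 : (univ.filter fun z => G.Adj x z ∧ dg G z = D) =
        insert y (univ.filter fun z => G.Adj x z ∧ z ≠ y ∧ dg G z = D) := by
      ext z
      simp only [mem_filter, mem_univ, true_and, mem_insert]
      constructor
      · rintro ⟨h3, h4⟩
        by_cases hz : z = y
        · exact Or.inl hz
        · exact Or.inr ⟨h3, hz, h4⟩
      · rintro (rfl | ⟨h3, _, h4⟩)
        · exact ⟨hxy, hk.trans h⟩
        · exact ⟨h3, h4⟩
    rw [h2, Finset.card_insert_of_notMem]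
    simp
  · rw [add_zero]
    congr 1
    ext z
    simp only [mem_filter, mem_univ, true_and]
    constructor
    · rintro ⟨h3, _, h4⟩; exact ⟨h3, h4⟩
    · rintro ⟨h3, h4⟩
      refine ⟨h3, ?_, h4⟩
      rintro rfl
      exact h (hk.symm.trans h4)

theorem pairs_card (G : SimpleGraph V) (D k : ℕ) : (pairs G D k).card =
    ∑ x, if dg G x = D ∧ D + 1 + (if k = D then 1 else 0) ≤ k + nb G x D then nb G x k else 0 := by
  classical
  have h2 : (pairs G D k).card = ∑ x, ((pairs G D k).filter fun p => p.1 = x).card :=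
    Finset.card_eq_sum_card_fiberwise (fun p _ => mem_coe.2 (mem_univ _))
  rw [h2]
  apply Finset.sum_congr rfl
  intro x _
  have h3 : ((pairs G D k).filter fun p => p.1 = x).card =
      (univ.filter fun y => G.Adj x y ∧ dg G y = k ∧ dg G x = D ∧
        D + 1 ≤ k + (big G D x y).ncard).card := by
    refine Finset.card_bij' (fun p _ => p.2) (fun y _ => (x, y)) ?_ ?_ ?_ ?_
    · rintro ⟨a, b⟩ hp
      rw [mem_filter, pairs, mem_filter] at hp
      obtain ⟨⟨_, hp⟩, rfl⟩ := hp
      exact mem_filter.2 ⟨mem_univ _, hp⟩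
    · intro y hy
      rw [mem_filter] at hy
      rw [mem_filter, pairs, mem_filter]
      exact ⟨⟨mem_univ _, hy.2⟩, rfl⟩
    · rintro ⟨a, b⟩ hp
      rw [mem_filter] at hp
      obtain ⟨_, rfl⟩ := hp
      rfl
    · intro y _
      rfl
  rw [h3]
  by_cases h : dg G x = D ∧ D + 1 + (if k = D then 1 else 0) ≤ k + nb G x D
  · rw [if_pos h, nb]
    congr 1
    ext y
    simp only [mem_filter, mem_univ, true_and]
    constructor
    · rintro ⟨h4, h5, _⟩; exact ⟨h4, h5⟩
    · rintro ⟨h4, h5⟩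
      refine ⟨h4, h5, h.1, ?_⟩
      have := big_ncard (D := D) h4 h5
      omega
  · rw [if_neg h, Finset.card_eq_zero, Finset.filter_eq_empty_iff]
    rintro y _ ⟨h4, h5, h6, h7⟩
    refine h ⟨h6, ?_⟩
    have := big_ncard (D := D) h4 h5
    omega

theorem pairs_rec {G H : SimpleGraph V} {σ : V ≃ V} (hd : Deck G H σ) (hn : 3 ≤ Fintype.card V)
    (D k : ℕ) : (pairs G D k).card = (pairs H D k).card := by
  rw [pairs_card, pairs_card, ← Equiv.sum_comp σ (fun x =>
    if dg H x = D ∧ D + 1 + (if k = D then 1 else 0) ≤ k + nb H x D then nb H x k else 0)]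
  apply Finset.sum_congr rfl
  intro x _
  rw [dg_rec hd hn, nb_rec hd hn, nb_rec hd hn]

end Pool.Agent.H70.CI
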