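import Mathlib
import Pool.Agent.H70.CI.Val

/-!
A lower bound for the average degree of a vertex-critical graph.
-/

set_option autoImplicit false
set_option linter.unusedSectionVars false

namespace Pool.Agent.H70.CI

open Finset Pool.Agent.H28 Pool.Agent.H15.EC

variable {V : Type} [Fintype V] [DecidableEq V]

open Classical in
/-- The neighbours of `v` of degree less than `q`. -/
noncomputable def sm (X : SimpleGraph V) (q : ℝ) (v : V) : Finset V :=
  univ.filter fun y => X.Adj v y ∧ (dg X y : ℝ) < q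

/-- What `v` gives to each of its neighbours of degree less than `q`. -/
noncomputable def gv (X : SimpleGraph V) (q : ℝ) (v : V) : ℝ :=
  max 0 ((dg X v : ℝ) - q) / ((sm X q v).card : ℝ)

theorem gv_nonneg (X : SimpleGraph V) (q : ℝ) (v : V) : 0 ≤ gv X q v := by
  unfold gv; positivity

theorem sum_gv (X : SimpleGraph V) (q : ℝ) (v : V) :
    ∑ _y ∈ sm X q v, gv X q v ≤ max 0 ((dg X v : ℝ) - q) := by
  rw [Finset.sum_const, nsmul_eq_mul, gv]
  rcases Nat.eq_zero_or_pos (sm X q v).card with h | h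
  · rw [h]; simp
  · have h' : ((sm X q v).card : ℝ) ≠ 0 := by positivity
    rw [mul_div_cancel₀ _ h']

theorem sm_card {G X : SimpleGraph V} {D : ℕ} (h : Span G X D) {q : ℝ} (hqD : q ≤ D) {v y : V}
    (hvy : X.Adj v y) : (sm X q v).card + D + 1 ≤ dg X v + dg X y := by
  classical
  have h1 := h.val hvy
  have h2 : (sm X q v).card + (big X D v y).ncard ≤ dg X v := by
    rw [← Set.ncard_coe_finset, ← Set.ncard_union_eq]
    · apply Set.ncard_le_ncard _ (Set.toFinite _)
      rintro z (hz | hz)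
      · rw [Finset.mem_coe, sm, mem_filter] at hz
        exact hz.2.1
      · exact hz.1
    · rw [Set.disjoint_left]
      intro z hz hz'
      rw [Finset.mem_coe, sm, mem_filter] at hz
      have h3 := hz.2.2
      rw [hz'.2.2] at h3
      linarith
  omega

theorem Span.two_le {G X : SimpleGraph V} {D : ℕ} (h : Span G X D) (y : V) : 2 ≤ dg X y := by
  classical
  obtain ⟨z, w, hzw, hz, hw, _⟩ := h.two y
  unfold dg
  rw [← Set.ncard_pair hzw]
  apply Set.ncard_le_ncard _ (Set.toFinite _)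
  rintro x (rfl | hx)
  · exact hz
  · rw [Set.mem_singleton_iff] at hx; subst hx; exact hw

theorem frac_mono {x z δ : ℝ} (hz : 0 < z) (hxz : x ≤ z) (hδ : 0 ≤ δ) :
    max 0 x / z ≤ max 0 (x + δ) / (z + δ) := by
  rcases le_or_gt x 0 with h | h
  · rw [max_eq_left h, zero_div]
    positivity
  · rw [max_eq_right h.le, max_eq_right (by linarith), div_le_div_iff₀ hz (by linarith)]
    nlinarith

open Classical in
theorem receive {G X : SimpleGraph V} {D : ℕ} (h : Span G X D) {q : ℝ} (hqD : q ≤ D)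
    (h1 : ∀ k : ℕ, 2 ≤ k → (k : ℝ) < q → (q - k) * (k - 1) ≤ k * (D - q))
    (h2 : ∀ k t : ℕ, 1 ≤ t → t + 2 ≤ k → (k : ℝ) < q → (D : ℝ) - q < k - 1 →
      (q - k) * (k - 1) ≤ (t + 1) * (D - q) + (k - 1) * max 0 (D - q - t))
    {y : V} (hy : (dg X y : ℝ) < q) :
    q - dg X y ≤ ∑ v ∈ univ.filter (fun v => X.Adj v y), gv X q v := by
  obtain ⟨k, hk⟩ : ∃ k, k = dg X y := ⟨_, rfl⟩
  rw [← hk] at hy ⊢
  have hk2 : 2 ≤ k := hk ▸ h.two_le y
  have hkr : (2 : ℝ) ≤ k := by exact_mod_cast hk2
  have hk1 : (0 : ℝ) < (k : ℝ) - 1 := by linarith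
  obtain ⟨N, hN⟩ : ∃ N, N = univ.filter (fun v => X.Adj v y) := ⟨_, rfl⟩
  have hNm : ∀ v, v ∈ N ↔ X.Adj v y := by intro v; rw [hN, mem_filter]; simp
  rw [← hN]
  have hNc : N.card = k := by
    rw [hk, dg, ← Set.ncard_coe_finset]
    congr 1
    ext v
    rw [Finset.mem_coe, hNm, SimpleGraph.mem_neighborSet, X.adj_comm]
  -- bounds for the neighbours
  have hs : ∀ v ∈ N, 1 ≤ (sm X q v).card ∧ (sm X q v).card + D + 1 ≤ dg X v + k := by
    intro v hv
    rw [hNm] at hv
    refine ⟨?_, hk ▸ sm_card h hqD hv⟩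
    rw [Nat.one_le_iff_ne_zero, Finset.card_ne_zero]
    exact ⟨y, by rw [sm, mem_filter]; exact ⟨mem_univ _, hv, hk ▸ hy⟩⟩
  have hg : ∀ v ∈ N, max 0 ((dg X v : ℝ) - q) / ((dg X v : ℝ) + k - D - 1) ≤ gv X q v := by
    intro v hv
    obtain ⟨h3, h4⟩ := hs v hv
    have h3' : (1 : ℝ) ≤ (sm X q v).card := by exact_mod_cast h3
    have h4' : ((sm X q v).card : ℝ) + D + 1 ≤ dg X v + k := by exact_mod_cast h4
    unfold gv
    apply div_le_div_of_nonneg_left (le_max_left _ _) (by linarith)
    linarith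
  have hdv : ∀ v, (dg X v : ℝ) ≤ D := fun v => by exact_mod_cast h.deg v
  have hD : ∀ v ∈ N, dg X v = D → ((D : ℝ) - q) / (k - 1) ≤ gv X q v := by
    intro v hv hvD
    refine le_trans (le_of_eq ?_) (hg v hv)
    rw [hvD, max_eq_right (by linarith)]
    congr 1
    ring
  have hall : (∀ v ∈ N, ((D : ℝ) - q) / (k - 1) ≤ gv X q v) →
      q - k ≤ ∑ v ∈ N, gv X q v := by
    intro h5
    have h6 := Finset.card_nsmul_le_sum N _ _ h5
    rw [hNc, nsmul_eq_mul] at h6
    refine le_trans ?_ h6
    rw [← mul_div_assoc, le_div_iff₀ hk1]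
    exact h1 k hk2 hy
  rcases le_or_gt ((k : ℝ) - 1) (D - q) with hA | hB
  · apply hall
    intro v hv
    refine le_trans ?_ (hg v hv)
    obtain ⟨h3, h4⟩ := hs v hv
    have h3' : (1 : ℝ) ≤ (sm X q v).card := by exact_mod_cast h3
    have h4' : ((sm X q v).card : ℝ) + D + 1 ≤ dg X v + k := by exact_mod_cast h4
    have h5 := hdv v
    rw [max_eq_right (by linarith), div_le_div_iff₀ hk1 (by linarith)]
    nlinarith [mul_nonneg (sub_nonneg.2 h5) (sub_nonneg.2 hA)]
  · have hNne : N.Nonempty := by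
      rw [← Finset.card_pos, hNc]; omega
    obtain ⟨u, hu, hmin⟩ := Finset.exists_min_image N (fun v => dg X v) hNne
    obtain ⟨t, ht⟩ : ∃ t, t = D - dg X u := ⟨_, rfl⟩
    have hud := h.deg u
    have htu : dg X u + t = D := by omega
    rcases Nat.eq_zero_or_pos t with ht0 | ht1
    · apply hall
      intro v hv
      have h5 := hmin v hv
      have h6 := h.deg v
      exact hD v hv (by omega)
    · -- many neighbours of degree `D`
      have hu' : X.Adj y u := ((hNm u).1 hu).symm
      have h5 := h.val hu'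
      have h6 : (big X D y u).ncard ≤ (N.filter fun v => dg X v = D).card := by
        rw [← Set.ncard_coe_finset]
        apply Set.ncard_le_ncard _ (Set.toFinite _)
        intro z hz
        rw [Finset.mem_coe, mem_filter, hNm]
        exact ⟨hz.1.symm, hz.2.2⟩
      obtain ⟨b, hb⟩ : ∃ b, b = (N.filter fun v => dg X v = D).card := ⟨_, rfl⟩
      have hbt : t + 1 ≤ b := by omega
      obtain ⟨h7, h8⟩ := hs u hu
      have htk : t + 2 ≤ k := by omega
      have htk' : (t : ℝ) + 2 ≤ k := by exact_mod_cast htk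
      have ht0 : (1 : ℝ) ≤ t := by exact_mod_cast ht1
      have hz : (0 : ℝ) < (k : ℝ) - 1 - t := by linarith
      have hbt' : (t : ℝ) + 1 ≤ b := by exact_mod_cast hbt
      have hoth : ∀ v ∈ N, max 0 ((D : ℝ) - q - t) / (k - 1 - t) ≤ gv X q v := by
        intro v hv
        refine le_trans ?_ (hg v hv)
        have h9 := hmin v hv
        have h10 : (D : ℝ) ≤ dg X v + t := by
          have : D ≤ dg X v + t := by omega
          exact_mod_cast this
        have h11 := frac_mono (x := (D : ℝ) - q - t) (z := (k : ℝ) - 1 - t)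
          (δ := (dg X v : ℝ) - (D - t)) hz (by linarith) (by linarith)
        refine le_trans h11 (le_of_eq ?_)
        congr 1 <;> ring_nf
      have hsum : ∑ v ∈ N, gv X q v =
          ∑ v ∈ N.filter (fun v => dg X v = D), gv X q v +
            ∑ v ∈ N.filter (fun v => ¬ dg X v = D), gv X q v :=
        (Finset.sum_filter_add_sum_filter_not N _ _).symm
      have hc : (N.filter (fun v => dg X v = D)).card +
          (N.filter (fun v => ¬ dg X v = D)).card = k := by
        rw [Finset.card_filter_add_card_filter_not, hNc]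
      have hs1 := Finset.card_nsmul_le_sum (N.filter (fun v => dg X v = D)) (gv X q)
        (((D : ℝ) - q) / (k - 1)) (fun v hv => hD v (mem_filter.1 hv).1 (mem_filter.1 hv).2)
      have hs2 := Finset.card_nsmul_le_sum (N.filter (fun v => ¬ dg X v = D)) (gv X q)
        (max 0 ((D : ℝ) - q - t) / (k - 1 - t)) (fun v hv => hoth v (mem_filter.1 hv).1)
      rw [← hb, nsmul_eq_mul] at hs1
      rw [nsmul_eq_mul] at hs2
      have hc' : ((N.filter (fun v => ¬ dg X v = D)).card : ℝ) = k - b := by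
        have : (b : ℝ) + ((N.filter (fun v => ¬ dg X v = D)).card : ℝ) = k := by
          rw [hb]; exact_mod_cast hc
        linarith
      rw [hc'] at hs2
      rw [hsum]
      refine le_trans ?_ (add_le_add hs1 hs2)
      have hcmp : max 0 ((D : ℝ) - q - t) / (k - 1 - t) ≤ ((D : ℝ) - q) / (k - 1) := by
        have h11 := frac_mono (x := (D : ℝ) - q - t) (z := (k : ℝ) - 1 - t) (δ := t) hz
          (by linarith) (by linarith)
        refine le_trans h11 (le_of_eq ?_)
        rw [sub_add_cancel, sub_add_cancel, max_eq_right (by linarith)]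
      obtain ⟨m, hm⟩ : ∃ m, m = max 0 ((D : ℝ) - q - t) / (k - 1 - t) := ⟨_, rfl⟩
      obtain ⟨g, hgg⟩ : ∃ g, g = ((D : ℝ) - q) / (k - 1) := ⟨_, rfl⟩
      rw [← hm, ← hgg] at hcmp ⊢
      have hm' : (k - 1 - t) * m = max 0 ((D : ℝ) - q - t) := by
        rw [hm, mul_div_cancel₀ _ hz.ne']
      have hg' : ((k : ℝ) - 1) * g = (D : ℝ) - q := by
        rw [hgg, mul_div_cancel₀ _ hk1.ne']
      have hfin := h2 k t ht1 htk hy hB
      rw [← hm', ← hg'] at hfin
      have hfin' : q - k ≤ (t + 1) * g + (k - 1 - t) * m := by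
        have : (q - k) * (k - 1) ≤ ((t + 1) * g + (k - 1 - t) * m) * (k - 1) := by
          linarith
        exact le_of_mul_le_mul_right this hk1
      nlinarith [mul_nonneg (sub_nonneg.2 hbt') (sub_nonneg.2 hcmp)]

/-- The discharging argument. -/
theorem discharge {G X : SimpleGraph V} {D : ℕ} (h : Span G X D) {q : ℝ} (hqD : q ≤ D)
    (h1 : ∀ k : ℕ, 2 ≤ k → (k : ℝ) < q → (q - k) * (k - 1) ≤ k * (D - q))
    (h2 : ∀ k t : ℕ, 1 ≤ t → t + 2 ≤ k → (k : ℝ) < q → (D : ℝ) - q < k - 1 →
      (q - k) * (k - 1) ≤ (t + 1) * (D - q) + (k - 1) * max 0 (D - q - t)) :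
    q * Fintype.card V ≤ ∑ v, (dg X v : ℝ) := by
  classical
  have hA : ∑ v, ∑ y ∈ sm X q v, gv X q v ≤ ∑ v, max 0 ((dg X v : ℝ) - q) :=
    Finset.sum_le_sum fun v _ => sum_gv X q v
  have hswap : ∑ v, ∑ y ∈ sm X q v, gv X q v =
      ∑ y, if (dg X y : ℝ) < q then ∑ v ∈ univ.filter (fun v => X.Adj v y), gv X q v else 0 := by
    have h3 : ∀ v, ∑ y ∈ sm X q v, gv X q v =
        ∑ y, if X.Adj v y ∧ (dg X y : ℝ) < q then gv X q v else 0 := by
      intro v
      rw [sm, Finset.sum_filter]
    simp_rw [h3]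
    rw [Finset.sum_comm]
    apply Finset.sum_congr rfl
    intro y _
    split_ifs with hy
    · rw [Finset.sum_filter]
      apply Finset.sum_congr rfl
      intro v _
      simp [hy]
    · apply Finset.sum_eq_zero
      intro v _
      simp [hy]
  have hB : ∑ y, max 0 (q - (dg X y : ℝ)) ≤
      ∑ y, if (dg X y : ℝ) < q then ∑ v ∈ univ.filter (fun v => X.Adj v y), gv X q v else 0 := by
    apply Finset.sum_le_sum
    intro y _
    split_ifs with hy
    · rw [max_eq_right (by linarith)]
      exact receive h hqD h1 h2 hy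
    · rw [max_eq_left (by linarith)]
  have hid : ∀ v, (dg X v : ℝ) = q + max 0 ((dg X v : ℝ) - q) - max 0 (q - (dg X v : ℝ)) := by
    intro v
    rcases le_total (dg X v : ℝ) q with h3 | h3
    · rw [max_eq_left (by linarith), max_eq_right (by linarith)]; ring
    · rw [max_eq_right (by linarith), max_eq_left (by linarith)]; ring
  have hsum : ∑ v, (dg X v : ℝ) = q * Fintype.card V + ∑ v, max 0 ((dg X v : ℝ) - q) -
      ∑ v, max 0 (q - (dg X v : ℝ)) := by
    rw [Finset.sum_congr rfl (fun v _ => hid v), Finset.sum_sub_distrib, Finset.sum_add_distrib,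
      Finset.sum_const, Finset.card_univ, nsmul_eq_mul, mul_comm]
  rw [hsum]
  linarith

end Pool.Agent.H70.CI
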