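import Mathlib
import Pool.Agent.H70.CI.Avg

/-!
The average degree of a vertex-critical graph: the numerical conditions.
-/

set_option autoImplicit false
set_option linter.unusedSectionVars false

namespace Pool.Agent.H70.CI

open Finset Pool.Agent.H28 Pool.Agent.H15.EC

theorem cond1 {D k s : ℝ} (hs : s * s = 2 * D - 1) :
    ((D + s) / 2 - k) * (k - 1) ≤ k * (D - (D + s) / 2) := by
  nlinarith [sq_nonneg (s - (2 * k - 1))]

theorem cond2_large {D k t s : ℝ} (hs : s * s = 2 * D - 1) (hs1 : 11 / 3 ≤ s) (ht : 1 ≤ t) :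
    ((D + s) / 2 - k) * (k - 1) ≤
      (t + 1) * (D - (D + s) / 2) + (k - 1) * max 0 (D - (D + s) / 2 - t) := by
  obtain ⟨a, ha⟩ : ∃ a, a = D - (D + s) / 2 := ⟨_, rfl⟩
  have ha1 : 4 * a = (s - 1) ^ 2 := by rw [ha]; nlinarith
  have hD : D = (s * s + 1) / 2 := by linarith
  rw [← ha]
  rcases le_or_gt a t with h | h
  · rw [max_eq_left (by linarith), mul_zero, add_zero]
    obtain ⟨q, hq⟩ : ∃ q, q = (D + s) / 2 := ⟨_, rfl⟩
    have hq1 : 4 * (q - 1) = (s - 1) * (s + 3) := by rw [hq, hD]; ring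
    rw [← hq]
    have h1 : (q - k) * (k - 1) ≤ ((q - 1) / 2) ^ 2 := by nlinarith [sq_nonneg (q - k - (k - 1))]
    have h2 : (a + 1) * a ≤ (t + 1) * a := by
      apply mul_le_mul_of_nonneg_right (by linarith)
      nlinarith [sq_nonneg (s - 1)]
    have h3 : ((q - 1) / 2) ^ 2 ≤ (a + 1) * a := by
      have e1 : q - 1 = (s - 1) * (s + 3) / 4 := by linarith
      have e2 : a = (s - 1) ^ 2 / 4 := by linarith
      have e3 : (a + 1) * a - ((q - 1) / 2) ^ 2 = (s - 1) ^ 2 * ((3 * s - 11) * (s - 1)) / 64 := by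
        rw [e1, e2]; ring
      have e4 : 0 ≤ (s - 1) ^ 2 * ((3 * s - 11) * (s - 1)) :=
        mul_nonneg (sq_nonneg _) (mul_nonneg (by linarith) (by linarith))
      linarith
    linarith
  · rw [max_eq_right (by linarith)]
    have e2 : a = (s - 1) ^ 2 / 4 := by linarith
    have h1 : t ≤ (s - 1) * (s - 3) := by nlinarith
    have e3 : (t + 1) * a + (k - 1) * (a - t) - ((D + s) / 2 - k) * (k - 1) =
        ((2 * k - 1 - s - t) ^ 2 + t * ((s - 1) * (s - 3) - t)) / 4 := by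
      rw [e2, hD]; ring
    have e4 : 0 ≤ t * ((s - 1) * (s - 3) - t) := mul_nonneg (by linarith) (by linarith)
    nlinarith [sq_nonneg (2 * k - 1 - s - t)]

theorem cond2_small {D k t : ℕ} {s : ℝ} (hs : s * s = 2 * D - 1) (hs0 : 0 ≤ s) (hD : D ≤ 7)
    (ht : 1 ≤ t) (htk : t + 2 ≤ k) (hk : (k : ℝ) < (D + s) / 2) :
    ((D + s) / 2 - k) * (k - 1) ≤
      (t + 1) * (D - (D + s) / 2) + (k - 1) * max 0 (D - (D + s) / 2 - t) := by
  have hm0 := le_max_left 0 ((D : ℝ) - (D + s) / 2 - t)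
  have hm1 := le_max_right 0 ((D : ℝ) - (D + s) / 2 - t)
  generalize max 0 ((D : ℝ) - (D + s) / 2 - t) = m at hm0 hm1 ⊢
  have hk3 : (3 : ℝ) ≤ k := by exact_mod_cast (by omega : 3 ≤ k)
  interval_cases D
  · exfalso; norm_num at hs; nlinarith
  · exfalso; norm_num at hs hk; nlinarith
  · exfalso; norm_num at hs hk; nlinarith
  · exfalso; norm_num at hs hk; nlinarith
  · norm_num at hs hk hm1 ⊢
    have hs1 : s < 2.65 := by nlinarith
    have hk4 : (k : ℝ) < 4 := by linarith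
    have hk4' : k < 4 := by exact_mod_cast hk4
    obtain ⟨rfl, rfl⟩ : k = 3 ∧ t = 1 := by omega
    norm_num at hm1 ⊢
    linarith
  · norm_num at hs hk hm1 ⊢
    have hs1 : s ≤ 3 := by nlinarith
    have hk4 : (k : ℝ) < 4 := by linarith
    have hk4' : k < 4 := by exact_mod_cast hk4
    obtain ⟨rfl, rfl⟩ : k = 3 ∧ t = 1 := by omega
    norm_num at hm1 ⊢
    linarith
  · norm_num at hs hk hm1 ⊢
    have hs1 : s < 3.32 := by nlinarith
    have hs2 : 3.31 < s := by nlinarith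
    have hk4 : (k : ℝ) < 5 := by linarith
    have hk4' : k < 5 := by exact_mod_cast hk4
    obtain ⟨rfl, rfl⟩ | ⟨rfl, rfl⟩ | ⟨rfl, rfl⟩ :
      (k = 3 ∧ t = 1) ∨ (k = 4 ∧ t = 1) ∨ (k = 4 ∧ t = 2) := by omega
    all_goals
      norm_num at hm1 ⊢
      linarith
  · norm_num at hs hk hm1 ⊢
    have hs1 : s < 3.61 := by nlinarith
    have hs2 : 3.60 < s := by nlinarith
    have hk4 : (k : ℝ) < 6 := by linarith
    have hk4' : k < 6 := by exact_mod_cast hk4
    obtain ⟨rfl, rfl⟩ | ⟨rfl, rfl⟩ | ⟨rfl, rfl⟩ | ⟨rfl, rfl⟩ | ⟨rfl, rfl⟩ | ⟨rfl, rfl⟩ :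
      (k = 3 ∧ t = 1) ∨ (k = 4 ∧ t = 1) ∨ (k = 4 ∧ t = 2) ∨ (k = 5 ∧ t = 1) ∨
        (k = 5 ∧ t = 2) ∨ (k = 5 ∧ t = 3) := by omega
    all_goals
      norm_num at hm1 ⊢
      linarith

variable {V : Type} [Fintype V] [DecidableEq V]

/-- A vertex-critical graph has average degree at least `(D + √(2D - 1)) / 2`. -/
theorem avg_le {G : SimpleGraph V} {D : ℕ} (hdeg : ∀ v, dg G v ≤ D) (h : VCrit G D) :
    ((D : ℝ) + Real.sqrt (2 * D - 1)) / 2 * Fintype.card V ≤ ∑ v, (dg G v : ℝ) := by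
  obtain ⟨X, hX⟩ := exists_span hdeg h
  have hsum : ∑ v, (dg X v : ℝ) ≤ ∑ v, (dg G v : ℝ) :=
    Finset.sum_le_sum fun v _ => by exact_mod_cast dg_mono hX.le v
  refine le_trans ?_ hsum
  obtain ⟨s, hs⟩ : ∃ s, s = Real.sqrt (2 * D - 1) := ⟨_, rfl⟩
  rw [← hs]
  rcases Nat.eq_zero_or_pos D with rfl | hD
  · have h0 : s = 0 := by rw [hs]; exact Real.sqrt_eq_zero_of_nonpos (by norm_num)
    rw [h0]
    simp only [Nat.cast_zero, add_zero, zero_div, zero_mul]
    positivity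
  · have hD1 : (1 : ℝ) ≤ D := by exact_mod_cast hD
    have hs0 : 0 ≤ s := hs ▸ Real.sqrt_nonneg _
    have hss : s * s = 2 * D - 1 := by rw [hs]; exact Real.mul_self_sqrt (by linarith)
    have hsD : s ≤ D := by nlinarith [sq_nonneg ((D : ℝ) - 1)]
    apply discharge hX (by linarith)
    · intro k _ _
      exact cond1 hss
    · intro k t ht htk hk _
      rcases Nat.lt_or_ge D 8 with h8 | h8
      · exact cond2_small hss hs0 (by omega) ht htk hk
      · have h8' : (8 : ℝ) ≤ D := by exact_mod_cast h8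
        exact cond2_large hss (by nlinarith) (by exact_mod_cast ht)

end Pool.Agent.H70.CI
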