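import Mathlib
import Pool.Agent.H70.CI.Num

/-!
From the deck to the chromatic number of the line graph.
-/

set_option autoImplicit false
set_option linter.unusedSectionVars false

namespace Pool.Agent.H70.CI

open Finset Pool.Agent.H28 Pool.Agent.H15.EC

variable {V : Type} [Fintype V] [DecidableEq V]

theorem colorable_iff_ecol (G : SimpleGraph V) (k : ℕ) : G.lineGraph.Colorable k ↔ ECol G k := by
  classical
  rw [colorable_iff]
  constructor
  · rintro ⟨f, hf⟩
    refine ⟨fun e => if h : e ∈ G.edgeSet then (f ⟨e, h⟩ : ℕ) else 0, fun u v huv => ?_,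
      fun u v w huv huw hvw => ?_⟩
    · have h : s(u, v) ∈ G.edgeSet := huv
      simp only [h, dif_pos]
      exact (f ⟨_, h⟩).2
    · have h : s(u, v) ∈ G.edgeSet := huv
      have h' : s(u, w) ∈ G.edgeSet := huw
      simp only [h, h', dif_pos]
      intro he
      have h1 := hf u (Sym2.mem_mk_left u v : u ∈ ((⟨_, h⟩ : G.edgeSet) : Sym2 V))
        (Sym2.mem_mk_left u w : u ∈ ((⟨_, h'⟩ : G.edgeSet) : Sym2 V)) (Fin.ext he)
      exact hvw (Sym2.congr_right.1 (congrArg Subtype.val h1))
  · rintro ⟨c, hc1, hc2⟩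
    have hlt : ∀ e : G.edgeSet, c e < k := by
      rintro ⟨e, he⟩
      induction e with
      | _ a b => exact hc1 a b he
    refine ⟨fun e => ⟨c e, hlt e⟩, fun v e he e' he' hee => ?_⟩
    by_contra hne
    obtain ⟨a, ha⟩ := he
    obtain ⟨b, hb⟩ := he'
    have hea : s(v, a) ∈ G.edgeSet := ha ▸ e.2
    have heb : s(v, b) ∈ G.edgeSet := hb ▸ e'.2
    have hab : a ≠ b := by
      rintro rfl
      exact hne (Subtype.ext (ha.trans hb.symm))
    have h2 := hc2 v a b hea heb hab
    rw [← ha, ← hb] at h2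
    exact h2 (Fin.mk.inj_iff.1 hee)

theorem dg_le_of_ecol {G : SimpleGraph V} {k : ℕ} (h : ECol G k) (v : V) : dg G v ≤ k := by
  classical
  obtain ⟨c, h1, h2⟩ := h
  unfold dg
  have h3 : Set.InjOn (fun w => c s(v, w)) (G.neighborSet v) := by
    intro a ha b hb hab
    by_contra hne
    exact h2 v a b ha hb hne hab
  rw [← Set.InjOn.ncard_image h3, ← Finset.card_range k, ← Set.ncard_coe_finset]
  apply Set.ncard_le_ncard _ (Set.toFinite _)
  rintro _ ⟨a, ha, rfl⟩
  rw [Finset.mem_coe, mem_range]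
  exact h1 v a ha

theorem chi_le {G H : SimpleGraph V}
    (h : ∀ k : ℕ, G.lineGraph.Colorable k → H.lineGraph.Colorable k) :
    H.lineGraph.chromaticNumber ≤ G.lineGraph.chromaticNumber := by
  rcases eq_or_ne G.lineGraph.chromaticNumber ⊤ with ht | ht
  · rw [ht]; exact le_top
  · obtain ⟨m, hm⟩ := ENat.ne_top_iff_exists.1 ht
    rw [← hm, SimpleGraph.chromaticNumber_le_iff_colorable]
    apply h
    rw [← SimpleGraph.chromaticNumber_le_iff_colorable, hm]

theorem chi_eq {G H : SimpleGraph V} {σ : V ≃ V} (hd : Deck G H σ) (hn : 3 ≤ Fintype.card V)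
    {D : ℕ} (hdeg : ∀ v, dg G v ≤ D) (hatt : ∃ v, dg G v = D) (hG : ¬ VCrit G D)
    (hH : ¬ VCrit H D) : G.lineGraph.chromaticNumber = H.lineGraph.chromaticNumber := by
  have hdegH : ∀ v, dg H v ≤ D := by
    intro v
    have := dg_rec hd hn (σ.symm v)
    rw [σ.apply_symm_apply] at this
    rw [← this]; exact hdeg _
  obtain ⟨v, hv⟩ := hatt
  have hv' : dg H (σ v) = D := by rw [← dg_rec hd hn, hv]
  have key : ∀ k, G.lineGraph.Colorable k ↔ H.lineGraph.Colorable k := by
    intro k
    rw [colorable_iff_ecol, colorable_iff_ecol]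
    rcases lt_trichotomy k D with hk | rfl | hk
    · refine iff_of_false (fun h => ?_) (fun h => ?_)
      · have := dg_le_of_ecol h v; omega
      · have := dg_le_of_ecol h (σ v); omega
    · exact ecol_iff_of_deck hd k hG hH
    · exact iff_of_true ((vizing hdeg).mono_D hk) ((vizing hdegH).mono_D hk)
  exact le_antisymm (chi_le fun k => (key k).2) (chi_le fun k => (key k).1)

/-- The notion of deck used in the statements. -/
theorem deck_of {n : ℕ} {G H : SimpleGraph (Fin n)} {σ : Fin n ≃ Fin n}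
    (h : ∀ v : Fin n,
      Nonempty (G.induce {w : Fin n | w ≠ v} ≃g H.induce {w : Fin n | w ≠ σ v})) :
    Deck G H σ := by
  intro v
  obtain ⟨φ⟩ := h v
  let e : {x : Fin n // x ≠ v} ≃ {x : Fin n // x ≠ σ v} := φ.toEquiv
  refine ⟨e.extendSubtype, ?_, ?_⟩
  · have := Equiv.extendSubtype_not_mem e v (by simp)
    simpa using this
  · intro x hx y hy
    have hx' : x ≠ v := (mem_erase.1 hx).1
    have hy' : y ≠ v := (mem_erase.1 hy).1
    rw [Equiv.extendSubtype_apply_of_mem e x hx', Equiv.extendSubtype_apply_of_mem e y hy']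
    have h1 := φ.map_rel_iff (a := ⟨x, hx'⟩) (b := ⟨y, hy'⟩)
    exact h1.symm

theorem dg_eq_degree (G : SimpleGraph V) [DecidableRel G.Adj] (v : V) : dg G v = G.degree v := by
  classical
  unfold dg
  rw [← SimpleGraph.card_neighborSet_eq_degree, Set.ncard_eq_toFinset_card', Set.toFinset_card]

end Pool.Agent.H70.CI
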